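import Pool.Agent.Lib.MP_de94ef_pr.V.Ext

/-!
From a variance bound to exponential tails and to the shape estimates.
-/

open MeasureTheory ProbabilityTheory Set Real Function Filter Topology
open scoped ENNReal NNReal

namespace Pool.Agent.Lib.MP_de94ef_pr.Q.V

lemma pow_four_TT (x y : VV) {r : ℝ} (hn : n1 (y - x) ≤ r) (hr : 1 ≤ r) :
    Integrable (fun ω => TT ω x y ^ 4) PE ∧ ∫ ω, TT ω x y ^ 4 ∂PE ≤ 10 ^ 18 * r ^ 4 := by
  have s0 := sig_pos hr
  have h0 : 0 ≤ hh (y - x) := integral_nonneg fun ω => TT_nonneg _ _ _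
  have h := dom_pow_four (measurable_TT x y) (dom_up x y hn hr) (by positivity) h0
  simp only [max_eq_left (TT_nonneg _ x y)] at h
  refine ⟨h.1, h.2.trans ?_⟩
  have a1 : hh (y - x) ^ 4 ≤ r ^ 4 := pow_le_pow_left₀ h0 ((hh_le _).trans hn) 4
  have a2 : sig r ^ 4 ≤ r ^ 4 := pow_le_pow_left₀ s0.le (sig_le_self hr) 4
  have a3 : 0 ≤ r ^ 4 := by positivity
  rw [mul_pow]
  linarith

lemma memLp_TT (x y : VV) : MemLp (fun ω => TT ω x y) 2 PE := by
  have h := (pow_four_TT x y (le_max_left _ 1) (le_max_right _ _)).1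
  refine (memLp_two_iff_integrable_sq (measurable_TT x y).aestronglyMeasurable).2
    (((integrable_const (1 : ℝ)).add h).mono'
      (Measurable.aestronglyMeasurable (by fun_prop)) (ae_of_all _ fun ω => ?_))
  rw [Real.norm_of_nonneg (sq_nonneg _), Pi.add_apply]
  nlinarith [sq_nonneg (TT ω x y ^ 2 - 1)]

lemma dom_of_var (Γ : ℝ) : ∃ ε : ℝ, 0 < ε ∧ ∀ (Z : Env → ℝ) (d S : ℝ), Measurable Z →
    MemLp Z 2 PE → 0 < S → Var[Z; PE] ≤ ε * S ^ 2 → d ≤ ∫ ω, Z ω ∂PE + Γ * S →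
    Dom (fun ω z => z = Z ω) d (S / 3) → Dom (fun ω z => z = Z ω) (∫ ω, Z ω ∂PE) S := by
  obtain ⟨ε, hε, h⟩ := smallVar (3 * exp (3 * Γ))
  refine ⟨ε, hε, fun Z d S hZ h2 hS hV hd hD => dom_single hZ ?_⟩
  have i1 := h2.integrable one_le_two
  rw [ENNReal.ofReal_ofNat]
  refine h (Z := fun ω => (Z ω - ∫ ω, Z ω ∂PE) / S) (by fun_prop)
    (by simp only [div_eq_inv_mul]; exact (h2.sub (memLp_const _)).const_mul S⁻¹) ?_ ?_ ?_
  · rw [integral_div, integral_sub i1 (integrable_const _)]; simp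
  · simp only [div_pow]
    rw [integral_div, div_le_iff₀ (by positivity), ← variance_eq_integral hZ.aemeasurable]
    exact hV
  · calc _ ≤ ∫⁻ ω, ENNReal.ofReal (exp (3 * Γ)) *
          ENNReal.ofReal (exp ((Z ω - d) / (S / 3))) ∂PE := by
          refine lintegral_mono fun ω => ?_
          rw [← ENNReal.ofReal_mul (exp_pos _).le, ← exp_add]
          refine ENNReal.ofReal_le_ofReal (exp_le_exp.2 ?_)
          rw [show 3 * Γ + (Z ω - d) / (S / 3) = 3 * ((Z ω - d + Γ * S) / S) by field_simp; ring]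
          gcongr
          linarith
      _ ≤ _ := by
          rw [lintegral_const_mul _ (by fun_prop), mul_comm 3 (exp _),
            ENNReal.ofReal_mul (exp_pos _).le, ENNReal.ofReal_ofNat]
          gcongr
          exact dom_lintegral hD

theorem concStep : ∃ ε K : ℝ, 0 < ε ∧ ∀ (μ : ℝ × ℝ → ℝ) (σ : ℝ → ℝ) (R : ℝ), IsTC μ → Sc σ →
    (∀ r, 1 ≤ r → K ≤ σ r) → (∀ v, 1 ≤ n1 v → Var[fun ω => TT ω 0 v; PE] ≤ ε * σ (n1 v) ^ 2) →
    1 ≤ R → Conc σ R → Conc σ (2 * R) := by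
  obtain ⟨B, K0, hB, h0⟩ := ext (X := 3) (by norm_num)
  obtain ⟨B0, hB0, h1⟩ := meanB
  obtain ⟨ε, hε, h2⟩ := dom_of_var (B + B0)
  refine ⟨ε, K0, hε, fun μ σ R tc sc big hV hR conc x y r r1 r2 r3 => ?_⟩
  have pos : ∀ r, 1 ≤ r → 0 < σ r := fun r hr => lt_of_lt_of_le (by norm_num) (sc.big r hr)
  rcases le_total (n1 (y - x)) R with hc | hc
  · have a1 : 1 ≤ min r R := le_min r2 hR
    obtain ⟨a2, a3⟩ := conc x y (min r R) (le_min r1 hc) a1 (min_le_right _ _)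
    have a4 := sc.mono _ _ (by linarith) (min_le_left r R)
    exact ⟨a2.scale (pos _ a1) a4, a3.scale (pos _ a1) a4⟩
  have a1 : 1 ≤ n1 (y - x) := hR.trans hc
  have a2 := hV (y - x) a1
  have a3 : Var[fun ω => TT ω x y; PE] = Var[fun ω => TT ω 0 (y - x); PE] := by
    have := (measurePreserving_tau x).variance_fun_comp (measurable_TT 0 (y - x)).aemeasurable
    simpa [TT_tau] using this
  rw [← a3] at a2
  obtain ⟨a4, a5⟩ := h0 μ σ R tc sc conc big
  have a6 := h1 μ σ R tc sc conc (y - x) (n1 (y - x)) (tc.le _) (r1.trans r3)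
  have a7 := tc.le_hh (y - x)
  have a8 := sc.mono _ _ (by linarith) r1
  have s0 := pos _ a1
  have b1 := h2 (fun ω => TT ω x y) (μ (iv (y - x)) + B * σ (n1 (y - x))) _ (measurable_TT x y)
    (memLp_TT x y) s0 a2 (by rw [integral_TT]; nlinarith)
    ((a4 x y _ le_rfl a1 (r1.trans r3)).mono (by positivity) fun ω z hz => ⟨_, rfl, by linarith⟩)
  have b2 := h2 (fun ω => -TT ω x y) (-μ (iv (y - x)) + B * σ (n1 (y - x))) _
    (measurable_TT x y).neg (memLp_TT x y).neg s0 (by rwa [variance_fun_neg])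
    (by rw [integral_neg, integral_TT]; nlinarith)
    ((a5 x y _ le_rfl a1 (r1.trans r3)).mono (by positivity) fun ω z hz => ⟨_, rfl, by linarith⟩)
  rw [integral_TT] at b1
  rw [integral_neg, integral_TT] at b2
  exact ⟨b1.scale s0 a8, b2.scale s0 a8⟩

lemma sc_rpow {A e : ℝ} (hA : 10 ^ 30 ≤ A) (h1 : 1 / 3 ≤ e) (h2 : e ≤ 1 / 2) :
    Sc fun r => A * r ^ e := by
  have A0 : 0 < A := lt_of_lt_of_le (by norm_num) hA
  refine ⟨fun r hr => by positivity, fun r r' hr h => by gcongr, fun r k hr hk => ?_,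
    fun r hr => ?_, fun r hr => ?_⟩
  · have a1 : (k ^ 2) ^ e ≤ k := by
      rw [← rpow_natCast, ← rpow_mul (by linarith)]
      exact (rpow_le_rpow_of_exponent_le hk (by push_cast; linarith)).trans (rpow_one k).le
    rw [mul_rpow (by positivity) hr]
    have a2 := mul_le_mul_of_nonneg_right a1 (show 0 ≤ A * r ^ e by positivity)
    linarith
  · have a1 : (5 / 4 : ℝ) ≤ 2 ^ e := by
      refine le_trans ?_ (rpow_le_rpow_of_exponent_le (by norm_num) h1)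
      refine le_of_pow_le_pow_left₀ (n := 3) (by norm_num) (by positivity) ?_
      rw [← rpow_natCast ((2 : ℝ) ^ (1 / 3 : ℝ)), ← rpow_mul (by norm_num)]
      norm_num
    rw [div_rpow hr (by norm_num), ← mul_div_assoc, div_le_iff₀ (by positivity)]
    have a2 := mul_le_mul_of_nonneg_left a1 (show 0 ≤ A * r ^ e by positivity)
    linarith
  · have := one_le_rpow hr (show 0 ≤ e by linarith)
    nlinarith

theorem conc_all {μ : ℝ × ℝ → ℝ} (hμ : IsTC μ) {e D : ℝ} (h1 : 1 / 3 ≤ e) (h2 : e ≤ 1 / 2)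
    (hV : ∀ v, 1 ≤ n1 v → Var[fun ω => TT ω 0 v; PE] ≤ D * n1 v ^ (2 * e)) :
    ∃ A : ℝ, 1 ≤ A ∧ Sc (fun r => A * r ^ e) ∧ ∀ R, Conc (fun r => A * r ^ e) R := by
  obtain ⟨ε, K, hε, h⟩ := concStep
  obtain ⟨A, A1, A2, A3⟩ : ∃ A : ℝ, 10 ^ 30 ≤ A ∧ K ≤ A ∧ D / ε ≤ A :=
    ⟨max (10 ^ 30) (max K (D / ε)), le_max_left _ _, (le_max_left _ _).trans (le_max_right _ _),
      (le_max_right _ _).trans (le_max_right _ _)⟩
  have hs : Sc fun r => A * r ^ e := sc_rpow A1 h1 h2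
  have A4 : D ≤ ε * A ^ 2 := by
    rw [div_le_iff₀ hε] at A3
    have : A ≤ A ^ 2 := by nlinarith
    nlinarith
  refine ⟨A, by linarith, hs, ?_⟩
  have all : ∀ n : ℕ, Conc (fun r => A * r ^ e) (2 ^ n) := by
    intro n
    induction n with
    | zero =>
      intro x y r r1 r2 r3
      obtain rfl : r = 1 := le_antisymm (by simpa using r3) r2
      have a2 : 4800 * sig 1 ≤ A * (1 : ℝ) ^ e := by
        rw [one_rpow]; linarith [sig_le_self le_rfl]
      have a3 := sig_pos r2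
      exact ⟨(dom_up x y r1 r2).scale (by linarith) a2,
        (dom_down x y r1 r2).scale (by linarith) a2⟩
    | succ n ih =>
      rw [pow_succ']
      refine h μ _ _ hμ hs (fun r hr => ?_) (fun v hv => (hV v hv).trans ?_)
        (one_le_pow₀ (by norm_num)) ih
      · have := one_le_rpow hr (show 0 ≤ e by linarith)
        nlinarith
      · change D * n1 v ^ (2 * e) ≤ ε * (A * n1 v ^ e) ^ 2
        rw [mul_pow, ← mul_assoc, mul_comm 2 e, rpow_mul (by linarith), rpow_two]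
        exact mul_le_mul_of_nonneg_right A4 (sq_nonneg _)
  intro R x y r r1 r2 _
  obtain ⟨n, hn⟩ := pow_unbounded_of_one_lt r (by norm_num : (1 : ℝ) < 2)
  exact all n x y r r1 r2 hn.le

/-- A variance bound gives exponential tails around the time constant at the same scale. -/
theorem tail_pow {μ : ℝ × ℝ → ℝ} (hμ : IsTC μ) {e D : ℝ} (e0 : 1 / 3 ≤ e) (e1 : e ≤ 1 / 2)
    (hV : ∀ v, 1 ≤ n1 v → Var[fun ω => TT ω 0 v; PE] ≤ D * n1 v ^ (2 * e)) :
    ∃ C : ℝ, 1 ≤ C ∧ ∀ (v : VV) (r s : ℝ),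
    n1 v ≤ r → 1 ≤ r → PE {ω | s ≤ |TT ω 0 v - μ (iv v)|} ≤
      ENNReal.ofReal (C * exp (-(s / (C * r ^ e)))) := by
  obtain ⟨A, hA, hs, h⟩ := conc_all hμ e0 e1 hV
  obtain ⟨B, hB, h1⟩ := meanB
  have x1 : 1 ≤ exp (B + 1) := one_le_exp (by linarith)
  refine ⟨A + 6 * exp (B + 1), by linarith, fun v r s r1 r2 => ?_⟩
  rcases le_total s 0 with s0 | s0
  · refine prob_le_one.trans (ENNReal.one_le_ofReal.2 ?_)
    have : 1 ≤ exp (-(s / ((A + 6 * exp (B + 1)) * r ^ e))) :=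
      one_le_exp (neg_nonneg.2 (div_nonpos_of_nonpos_of_nonneg s0 (by positivity)))
    nlinarith
  obtain ⟨a1, a2⟩ := estBase hμ hs (h r) (h1 μ _ r hμ hs (h r)) hB le_rfl
    (by linarith : r ≤ 2 * r)
  have p0 : 0 < A * r ^ e := by positivity
  obtain ⟨E1, -, b1, c1⟩ := dom_event (a1 0 v r (by rwa [sub_zero]) r2 le_rfl) (by positivity)
    (s / (A * r ^ e) - (B + 1))
  obtain ⟨E2, -, b2, c2⟩ := dom_event (a2 0 v r (by rwa [sub_zero]) r2 le_rfl) (by positivity)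
    (s / (A * r ^ e) - (B + 1))
  have e2 : B * (A * r ^ e) + (s / (A * r ^ e) - (B + 1)) * (A * r ^ e / 1) = s - A * r ^ e := by
    field_simp; ring
  simp only [sub_zero, e2] at c1 c2
  refine (measure_mono (t := E1 ∪ E2) fun ω hω => ?_).trans ((measure_union_le _ _).trans
    ((add_le_add b1 b2).trans ?_))
  · by_contra hc
    rw [mem_union, not_or] at hc
    have := abs_le.2 ⟨by linarith [c2 ω hc.2 _ rfl], c1 ω hc.1 _ rfl⟩
    exact absurd (le_trans hω this) (by linarith)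
  · rw [← ENNReal.ofReal_add (by positivity) (by positivity)]
    refine ENNReal.ofReal_le_ofReal ?_
    have d1 : exp (-(s / (A * r ^ e))) ≤ exp (-(s / ((A + 6 * exp (B + 1)) * r ^ e))) := by
      gcongr; linarith
    rw [neg_sub, sub_eq_add_neg, exp_add]
    nlinarith [exp_pos (-(s / ((A + 6 * exp (B + 1)) * r ^ e))),
      mul_le_mul_of_nonneg_left d1 (exp_pos (B + 1)).le]

lemma bad_pow {μ : ℝ × ℝ → ℝ} (hμ : IsTC μ) {e D ζ : ℝ} (e0 : 1 / 3 ≤ e) (e1 : e ≤ 1 / 2)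
    (hV : ∀ v, 1 ≤ n1 v → Var[fun ω => TT ω 0 v; PE] ≤ D * n1 v ^ (2 * e))
    (h1 : e - 1 / 3 < ζ) (h2 : ζ < 2 / 3) (q : ℝ) : ∃ C : ℝ, 0 ≤ C ∧ ∀ᶠ t : ℝ in atTop,
      PE (BadU μ (t ^ (-(1 / 6 : ℝ) + ζ)) t) ≤ ENNReal.ofReal (C * t ^ (-q)) := by
  classical
  obtain ⟨C, hC, h⟩ := tail_pow hμ e0 e1 hV
  refine ⟨47 ^ 2 * C, by positivity, ?_⟩
  obtain ⟨δ, hδ⟩ : ∃ δ, δ = 1 / 3 + ζ - e := ⟨_, rfl⟩
  have δ0 : 0 < δ := by linarith
  have hc : 0 < 1 / (2 * C * 22 ^ e) := by positivity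
  filter_upwards [(tendsto_rpow_atTop δ0).eventually
    (isLittleO_exp_neg_mul_rpow_atTop hc (-(q + 2) / δ)).eventuallyLE, eventually_ge_atTop 1]
    with t h3 h4
  have ht : 0 < t := by linarith
  rw [Real.norm_eq_abs, Real.norm_eq_abs, abs_of_pos (exp_pos _), ← rpow_mul ht.le,
    mul_div_cancel₀ _ δ0.ne', abs_of_pos (rpow_pos_of_pos ht _)] at h3
  have e2 : t ^ (-(1 / 6 : ℝ) + ζ) * √t = t ^ δ * t ^ e := by
    rw [sqrt_eq_rpow, ← rpow_add ht, ← rpow_add ht, hδ]; congr 1; ring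
  have e3 : t ^ δ * t ^ e ≤ t := by
    rw [← rpow_add ht]
    exact (rpow_le_rpow_of_exponent_le h4 (by linarith)).trans (rpow_one t).le
  have point : ∀ x, n1 x ≤ 22 * t → PE {ω | Bad μ (t ^ (-(1 / 6 : ℝ) + ζ)) t x ω} ≤
      ENNReal.ofReal (C * t ^ (-(q + 2))) := fun x hx => by
    refine (measure_mono fun ω hω => ?_).trans ((h x (22 * t) (t ^ δ * t ^ e / 2) hx
      (by linarith)).trans (ENNReal.ofReal_le_ofReal ?_))
    · rcases hω with hω | hω
      · rw [e2] at hω; exact hω.2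
      · have a1 := hμ.le (iv x)
        rw [r1_iv] at a1
        change t ^ δ * t ^ e / 2 ≤ |TT ω 0 x - μ (iv x)|
        linarith [le_abs_self (TT ω 0 x - μ (iv x)), hω.1, hω.2]
    · refine mul_le_mul_of_nonneg_left (le_trans (le_of_eq ?_) h3) (by linarith)
      rw [mul_rpow (by norm_num) ht.le]
      congr 1
      have := rpow_pos_of_pos ht e
      field_simp
  set Z := (box 0 ⌈22 * t⌉₊).filter fun e => n1 e ≤ 22 * t with hZ
  have e4 : {e | n1 e ≤ 22 * t} = (Z : Set VV) := by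
    ext e
    simp only [hZ, Finset.coe_filter, mem_ofPred_eq, iff_and_self]
    exact fun he => mem_box_of_n1 (by rw [sub_zero]; exact he.trans (Nat.le_ceil _))
  have e5 : (Z.card : ℝ) ≤ (47 * t) ^ 2 := by
    have a1 : (Z.card : ℝ) ≤ (box 0 ⌈22 * t⌉₊).card := by exact_mod_cast Finset.card_filter_le _ _
    rw [card_box] at a1
    push_cast at a1
    refine a1.trans ?_
    gcongr
    linarith [Nat.ceil_lt_add_one (a := 22 * t) (by linarith)]
  rw [BadU, e4]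
  refine (measure_biUnion_finset_le Z _).trans ((Finset.sum_le_card_nsmul _ _ _
    fun e he => point e (Finset.mem_filter.1 he).2).trans ?_)
  rw [nsmul_eq_mul, ← ENNReal.ofReal_natCast, ← ENNReal.ofReal_mul (by positivity)]
  refine ENNReal.ofReal_le_ofReal ((mul_le_mul_of_nonneg_right e5 (by positivity)).trans
    (le_of_eq ?_))
  have : t ^ (-q) = t ^ 2 * t ^ (-(q + 2)) := by
    rw [← rpow_two, ← rpow_add ht]; congr 1; ring
  rw [this]; ring

lemma eventually_pow {ζ : ℝ} (h1 : -(1 / 3) < ζ) (h2 : ζ < 2 / 3) : ∀ᶠ t : ℝ in atTop,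
    4 ≤ t ^ (-(1 / 6 : ℝ) + ζ) * √t ∧ t ^ (-(1 / 6 : ℝ) + ζ) * √t < t ∧
      t ^ (-(2 / 3 : ℝ) + ζ) = t ^ (-(1 / 6 : ℝ) + ζ) * t ^ (-(1 / 2 : ℝ)) := by
  filter_upwards [(tendsto_rpow_atTop (show 0 < 1 / 3 + ζ by linarith)).eventually_ge_atTop 4,
    eventually_gt_atTop 1] with t h3 h4
  have ht : 0 < t := by linarith
  have e2 : t ^ (-(1 / 6 : ℝ) + ζ) * √t = t ^ (1 / 3 + ζ) := by
    rw [sqrt_eq_rpow, ← rpow_add ht]; congr 1; ring
  refine ⟨by rwa [e2], ?_, by rw [← rpow_add ht]; congr 1; ring⟩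
  rw [e2]
  exact (rpow_lt_rpow_of_exponent_lt h4 (by linarith)).trans_eq (rpow_one t)

lemma isBigO_of_bad' {Ω : Type} [MeasureSpace Ω] {Φ : Ω → EE → ℝ} {μ : ℝ × ℝ → ℝ}
    (hΦ : MeasurePreserving Φ volume PE) {A : ℝ → ℝ} {C q : ℝ} (hC : 0 ≤ C)
    (h : ∀ᶠ t : ℝ in atTop, PE (BadU μ (A t) t) ≤ ENNReal.ofReal (C * t ^ (-q))) {E : ℝ → Set Ω}
    (hE : ∀ᶠ t : ℝ in atTop, ∀ᵐ ω ∂(volume : Measure Ω), ω ∈ E t → Φ ω ∈ BadU μ (A t) t) :
    Asymptotics.IsBigO atTop (fun t => ((volume : Measure Ω) (E t)).toReal)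
      fun t : ℝ => t ^ (-q) := by
  refine Asymptotics.IsBigO.of_bound C ?_
  filter_upwards [h, hE, eventually_gt_atTop 0] with t h1 h2 ht
  have hp : 0 < t ^ (-q) := rpow_pos_of_pos ht _
  rw [Real.norm_eq_abs, Real.norm_eq_abs, abs_of_pos hp, abs_of_nonneg ENNReal.toReal_nonneg]
  refine ENNReal.toReal_le_of_le_ofReal (by positivity) (le_trans ?_ h1)
  rw [← hΦ.measure_preimage (s := BadU μ (A t) t) (MeasurableSet.biUnion (to_countable _)
    fun e _ => measurableSet_bad μ (A t) t e).nullMeasurableSet]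
  exact measure_mono_ae h2

end Pool.Agent.Lib.MP_de94ef_pr.Q.V
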