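import Pool.Agent.Lib.MP_de94ef_pr.V.Conc

/-!
From the shape estimates to a variance bound.
-/

open MeasureTheory ProbabilityTheory Set Real Function Filter Topology
open scoped ENNReal NNReal Pointwise

namespace Pool.Agent.Lib.MP_de94ef_pr.Q.V

lemma sq_split {x m N : ℝ} (hx : 0 ≤ x) (hm : 0 ≤ m) (hN : 0 < N) :
    (x - m) ^ 2 ≤ N + (x ^ 4 + m ^ 4) / N := by
  have a0 : 0 ≤ (x ^ 4 + m ^ 4) / N := by positivity
  rcases le_total ((x - m) ^ 2) N with h1 | h1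
  · linarith
  have a2 : ((x - m) ^ 2) ^ 2 ≤ x ^ 4 + m ^ 4 := by
    have b1 : 0 ≤ x ^ 4 := by positivity
    have b2 : 0 ≤ m ^ 4 := by positivity
    rcases le_total x m with h2 | h2
    · have c1 : (x - m) ^ 2 ≤ m ^ 2 := by
        linarith [mul_nonneg hx (show 0 ≤ 2 * m - x by linarith)]
      linarith [pow_le_pow_left₀ (sq_nonneg _) c1 2]
    · have c1 : (x - m) ^ 2 ≤ x ^ 2 := by
        linarith [mul_nonneg hm (show 0 ≤ 2 * x - m by linarith)]
      linarith [pow_le_pow_left₀ (sq_nonneg _) c1 2]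
  have a3 : (x - m) ^ 2 ≤ (x ^ 4 + m ^ 4) / N := by
    rw [le_div_iff₀ hN]
    linarith [mul_le_mul_of_nonneg_left h1 (sq_nonneg (x - m))]
  linarith

lemma var_of_tail {v : VV} (hv : 1 ≤ n1 v) {m s D : ℝ} (m0 : 0 ≤ m) (m1 : m ≤ n1 v)
    (hD : 0 ≤ D) (h : PE {ω | s < |TT ω 0 v - m|} ≤ ENNReal.ofReal (D / n1 v ^ 4)) :
    Var[fun ω => TT ω 0 v; PE] ≤ s ^ 2 + D + (10 ^ 18 + 1) := by
  classical
  have N0 : 0 < n1 v ^ 4 := by positivity
  obtain ⟨i4, b4⟩ := pow_four_TT 0 v (r := n1 v) (by rw [sub_zero]) hv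
  have hE : MeasurableSet {ω : Env | s < |TT ω 0 v - m|} :=
    measurableSet_lt measurable_const (by fun_prop)
  have i1 : Integrable ({ω : Env | s < |TT ω 0 v - m|}.indicator fun _ => n1 v ^ 4) PE :=
    (integrable_const _).indicator hE
  have i2 : Integrable (fun ω => (TT ω 0 v ^ 4 + m ^ 4) / n1 v ^ 4) PE :=
    (i4.add (integrable_const _)).div_const _
  have i3 : Integrable
      (fun ω => s ^ 2 + {ω : Env | s < |TT ω 0 v - m|}.indicator (fun _ => n1 v ^ 4) ω) PE :=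
    (integrable_const _).add i1
  rw [← variance_sub_const (measurable_TT 0 v).aestronglyMeasurable m]
  refine (variance_le_expectation_sq (Measurable.aestronglyMeasurable (by fun_prop))).trans
    ((integral_mono_of_nonneg (ae_of_all _ fun ω => sq_nonneg _) (i3.add i2)
      (ae_of_all _ fun ω => ?_)).trans ?_)
  · change (TT ω 0 v - m) ^ 2 ≤ s ^ 2 + {ω : Env | s < |TT ω 0 v - m|}.indicator
      (fun _ => n1 v ^ 4) ω + (TT ω 0 v ^ 4 + m ^ 4) / n1 v ^ 4
    by_cases hω : ω ∈ {ω : Env | s < |TT ω 0 v - m|}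
    · rw [indicator_of_mem hω]
      linarith [sq_split (TT_nonneg ω 0 v) m0 N0, sq_nonneg s]
    · have a1 := pow_le_pow_left₀ (abs_nonneg _)
        (show |TT ω 0 v - m| ≤ s from not_lt.1 fun hc => hω hc) 2
      have a2 : 0 ≤ (TT ω 0 v ^ 4 + m ^ 4) / n1 v ^ 4 := by positivity
      rw [sq_abs] at a1
      rw [indicator_of_notMem hω]
      linarith
  · simp only [Pi.add_apply]
    rw [integral_add i3 i2, integral_add (integrable_const _) i1, integral_indicator_const _ hE,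
      integral_div, integral_add i4 (integrable_const _)]
    simp only [integral_const, probReal_univ, smul_eq_mul, one_mul]
    have a1 : PE.real {ω : Env | s < |TT ω 0 v - m|} ≤ D / n1 v ^ 4 :=
      ENNReal.toReal_le_of_le_ofReal (by positivity) h
    rw [le_div_iff₀ N0] at a1
    have a2 : m ^ 4 ≤ n1 v ^ 4 := pow_le_pow_left₀ m0 m1 4
    have a3 : (∫ ω, TT ω 0 v ^ 4 ∂PE + m ^ 4) / n1 v ^ 4 ≤ 10 ^ 18 + 1 := by
      rw [div_le_iff₀ N0]; linarith
    linarith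

lemma int_eq {a b : ℤ} (h : |(a : ℝ) - b| ≤ 1 / 2) : b = a := by
  have h1 : |(a : ℝ) - b| < 1 := by linarith
  have h2 : |a - b| < 1 := by exact_mod_cast h1
  have := Int.abs_lt_one_iff.1 h2
  omega

lemma one_le_n1 {v : VV} (hv : v ≠ 0) : 1 ≤ n1 v := by
  have h4 : 1 ≤ |v.1| + |v.2| := by
    by_contra hn
    have a1 := abs_nonneg v.1
    have a2 := abs_nonneg v.2
    exact hv (Prod.ext (abs_eq_zero.1 (by omega)) (abs_eq_zero.1 (by omega)))
  unfold n1
  exact_mod_cast h4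

lemma ne_zero_of_n1 {v : VV} (hv : 1 ≤ n1 v) : v ≠ 0 := by
  rintro rfl
  norm_num [n1] at hv

theorem var_of_shape {Ω : Type} [MeasureSpace Ω] [IsProbabilityMeasure (volume : Measure Ω)]
    {T : Ω → ℤ × ℤ → ℝ} {μ : ℝ × ℝ → ℝ} {Φ : Ω → EE → ℝ} (hΦ : MeasurePreserving Φ volume PE)
    (ha : ∀ᵐ ω ∂(volume : Measure Ω), ∀ v, T ω v = TT (Φ ω) 0 v) (hμ : IsTC μ) {ζ : ℝ}
    (z0 : 0 < ζ) (z1 : ζ < 2 / 3)
    (h1 : Asymptotics.IsBigO atTop
        (fun t : ℝ => ((volume : Measure Ω) {ω | ¬ ({x : ℝ × ℝ | ∃ v : ℤ × ℤ, T ω v ≤ t ∧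
            |x.1 - (v.1 : ℝ)| ≤ 1 / 2 ∧ |x.2 - (v.2 : ℝ)| ≤ 1 / 2} ⊆
            ((1 + t ^ (-(2 / 3 : ℝ) + ζ)) * t) • {x : ℝ × ℝ | μ x ≤ 1})}).toReal)
        (fun t : ℝ => t ^ (-(4 : ℝ))))
    (h2 : Asymptotics.IsBigO atTop
        (fun t : ℝ => ((volume : Measure Ω) {ω | ¬ (((1 - t ^ (-(2 / 3 : ℝ) + ζ)) * t) •
            {x : ℝ × ℝ | μ x ≤ 1} ⊆ {x : ℝ × ℝ | ∃ v : ℤ × ℤ, T ω v ≤ t ∧
            |x.1 - (v.1 : ℝ)| ≤ 1 / 2 ∧ |x.2 - (v.2 : ℝ)| ≤ 1 / 2})}).toReal)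
        (fun t : ℝ => t ^ (-(4 : ℝ)))) :
    ∃ D : ℝ, ∀ v, 1 ≤ n1 v → Var[fun ω => TT ω 0 v; PE] ≤ D * n1 v ^ (2 * (1 / 3 + ζ)) := by
  obtain ⟨c1, c10, b1⟩ := Asymptotics.isBigO_iff'.1 h1
  obtain ⟨c2, c20, b2⟩ := Asymptotics.isBigO_iff'.1 h2
  obtain ⟨a, ha'⟩ : ∃ a, a = 1 / 3 + ζ := ⟨_, rfl⟩
  have a0 : 0 < a := by linarith
  have a1 : a < 1 := by linarith
  obtain ⟨t0, ht0⟩ := eventually_atTop.1 (b1.and (b2.and
    (((tendsto_rpow_atTop (show 0 < 1 - a by linarith)).eventually_ge_atTop 4).and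
      (eventually_ge_atTop 1))))
  have t1 : 1 ≤ t0 := (ht0 t0 le_rfl).2.2.2
  have key : ∀ t : ℝ, 0 < t → t ^ (-(2 / 3 : ℝ) + ζ) * t = t ^ a := fun t ht => by
    rw [← rpow_add_one ht.ne', ha']; congr 1; ring
  rw [← ha']
  refine ⟨4 + (22 * t0) ^ 4 + (c1 + c2) * 22 ^ 4 + (10 ^ 18 + 1), fun v hv => ?_⟩
  have n0 : 0 < n1 v := by linarith
  have p1 : 1 ≤ n1 v ^ (2 * a) := one_le_rpow hv (by linarith)
  have p2 : 0 ≤ (22 * t0) ^ 4 := by positivity
  have p3 : 0 ≤ (c1 + c2) * 22 ^ 4 := by positivity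
  have m0 := hμ.nonneg (iv v)
  have m1 := hμ.le (iv v)
  have m2 := hμ.ge (iv v)
  rw [r1_iv] at m1 m2
  generalize hm : μ (iv v) = m at m0 m1 m2
  rcases le_total m (2 * t0) with hc | hc
  · have := var_of_tail hv (s := 0) (D := n1 v ^ 4) m0 m1 (by positivity) (by
      rw [div_self (by positivity), ENNReal.ofReal_one]; exact prob_le_one)
    have b3 : n1 v ^ 4 ≤ (22 * t0) ^ 4 := pow_le_pow_left₀ n0.le (by linarith) 4
    nlinarith
  obtain ⟨s, hs⟩ : ∃ s, s = (2 * m) ^ a := ⟨_, rfl⟩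
  have s0 : 0 < s := by rw [hs]; exact rpow_pos_of_pos (by linarith) _
  have s1 : s ≤ m / 2 := by
    have d1 := (ht0 (2 * m) (by linarith)).2.2.1
    have d2 : (2 * m) ^ (1 - a) * s = 2 * m := by
      rw [hs, ← rpow_add (by linarith), sub_add_cancel, rpow_one]
    nlinarith
  have small : ∀ (c t : ℝ) (E : Set Ω), 0 < c → m / 2 ≤ t →
      ‖((volume : Measure Ω) E).toReal‖ ≤ c * ‖t ^ (-(4 : ℝ))‖ →
      (volume : Measure Ω) E ≤ ENNReal.ofReal (c * 22 ^ 4 / n1 v ^ 4) := fun c t E c0 ht h => by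
    have t0' : 0 < t := by linarith
    rw [Real.norm_of_nonneg ENNReal.toReal_nonneg,
      Real.norm_of_nonneg (rpow_nonneg t0'.le _), rpow_neg t0'.le,
      show (4 : ℝ) = ((4 : ℕ) : ℝ) by norm_num, rpow_natCast] at h
    refine (ENNReal.le_ofReal_iff_toReal_le (measure_ne_top _ _) (by positivity)).2 (h.trans ?_)
    rw [mul_div_assoc]
    refine mul_le_mul_of_nonneg_left ?_ c0.le
    rw [← one_div, div_le_div_iff₀ (by positivity) (by positivity), one_mul, ← mul_pow]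
    exact pow_le_pow_left₀ n0.le (by linarith) 4
  have e1 := small c1 (m - s) _ c10 (by linarith) (ht0 (m - s) (by linarith)).1
  have e2 := small c2 (m + s) _ c20 (by linarith) (ht0 (m + s) (by linarith)).2.1
  have hE : MeasurableSet {ω : Env | s < |TT ω 0 v - m|} :=
    measurableSet_lt measurable_const (by fun_prop)
  have := var_of_tail hv (s := s) (D := (c1 + c2) * 22 ^ 4) m0 m1 p3 (by
    rw [← hΦ.measure_preimage hE.nullMeasurableSet, add_mul, add_div,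
      ENNReal.ofReal_add (by positivity) (by positivity)]
    refine le_trans (measure_mono_ae ?_) ((measure_union_le _ _).trans (add_le_add e1 e2))
    filter_upwards [ha] with ω hω hE
    have hE' : s < |T ω v - m| := by rw [hω]; exact hE
    rcases lt_abs.1 hE' with h | h
    · refine Or.inr fun hsub => ?_
      have d1 : (m + s) ^ a ≤ s := by
        rw [hs]; exact rpow_le_rpow (by linarith) (by linarith) a0.le
      obtain ⟨w, f1, f2, f3⟩ := hsub (a := iv v) (by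
        rw [sub_mul, one_mul, key _ (by linarith), mem_smul_ball hμ (by linarith), hm]
        linarith)
      rw [show w = v from Prod.ext (int_eq f2) (int_eq f3)] at f1
      linarith
    · refine Or.inl fun hsub => ?_
      have d1 : (m - s) ^ a < s := by
        rw [hs]; exact rpow_lt_rpow (by linarith) (by linarith) a0
      have d2 : 0 ≤ (m - s) ^ a := rpow_nonneg (by linarith) _
      have d3 := hsub (a := iv v) ⟨v, by linarith, by simp [iv], by simp [iv]⟩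
      rw [add_mul, one_mul, key _ (by linarith), mem_smul_ball hμ (by linarith), hm] at d3
      linarith)
  have s2 : s ^ 2 ≤ 4 * n1 v ^ (2 * a) := by
    have d1 : s ^ 2 = 2 ^ (2 * a) * m ^ (2 * a) := by
      rw [hs, ← rpow_two, ← rpow_mul (by linarith), mul_comm a 2, mul_rpow (by norm_num) m0]
    have d2 : (2 : ℝ) ^ (2 * a) ≤ 4 := by
      refine (rpow_le_rpow_of_exponent_le (by norm_num) (show 2 * a ≤ 2 by linarith)).trans ?_
      rw [rpow_two]; norm_num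
    rw [d1]
    exact mul_le_mul d2 (rpow_le_rpow m0 m1 (by linarith)) (by positivity) (by norm_num)
  nlinarith

end Pool.Agent.Lib.MP_de94ef_pr.Q.V
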