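import Pool.Agent.Lib.MP_de94ef_pr.V.Mean

/-!
Exponential moments of all orders for scales of ratio `4 / 5`.
-/

open MeasureTheory ProbabilityTheory Set Real Function Filter Topology
open scoped ENNReal NNReal

namespace Pool.Agent.Lib.MP_de94ef_pr.Q.V

lemma ext_dom {Y : Env → ℝ} (hY : Measurable Y) {s A : ℝ} (hs : 0 < s)
    (h : ∫⁻ ω, ENNReal.ofReal (exp (Y ω / s)) ∂PE ≤ ENNReal.ofReal (exp A)) :
    Dom (fun ω z => z = Y ω) (A * s) s := by
  refine dom_single hY ?_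
  have e1 : ∀ ω, exp ((Y ω - A * s) / s) = exp (-A) * exp (Y ω / s) := fun ω => by
    rw [← exp_add]; congr 1; field_simp; ring
  simp only [e1, ENNReal.ofReal_mul (exp_pos _).le]
  rw [lintegral_const_mul' _ _ (by simp)]
  refine (mul_le_mul_right h _).trans ?_
  rw [← ENNReal.ofReal_mul (exp_pos _).le, ← exp_add]
  exact ENNReal.ofReal_le_ofReal (by simp)

theorem lowerM : ∃ Λ : ℝ, 0 ≤ Λ ∧ ∀ (μ : ℝ × ℝ → ℝ) (σ : ℝ → ℝ) (R m : ℝ), IsTC μ → Sc σ →
    Conc σ R → 1 ≤ m → 2 * σ m ≤ m → 1024 * m ≤ R → ∀ (K : ℕ) (x y : VV), 1 ≤ K →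
    μ (iv (y - x)) = K * m →
    Dom (fun ω z => z = μ (iv (y - x)) - TT ω x y) (Λ * K * σ m) (500 * σ m) := by
  obtain ⟨B, hB, hBU⟩ := meanB
  obtain ⟨Λ, hΛ0, hΛ⟩ := sum_exp (ε := 1 / 1000) (by norm_num)
  refine ⟨500 * (B + 11 + Λ), by positivity, fun μ σ R m h hσ hc hm hs hR K x y hK hx => ?_⟩
  have hK' : (1 : ℝ) ≤ K := by exact_mod_cast hK
  have s1 := hσ.big m hm
  have hU := (estBase h hσ hc (hBU μ σ R h hσ hc) hB le_rfl (by linarith)).1
  have hκ : σ m / m ≤ 1 / 2 := by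
    rw [div_le_iff₀ (by linarith)]
    linarith
  obtain ⟨f, hu, hL, hF⟩ := exists_tangent h (unit_dir h hx (by positivity)) (κ := σ m / m)
    (by positivity) hκ
  rw [← hu] at hL
  have hx' : iv (y - x) = ((K : ℝ) * m) • f.u := by rw [hu, smul_inv_smul₀ (by positivity)]
  clear hu
  have hD : ∀ (M : ℕ) (k j : ℤ), Dom (Blk f.u f.t f.L m m M k (k + j))
      (-meanF f m m j / 2 + 4 * (σ m / m) * m + 6 +
        2 * (2 * (σ m / m) * m + (100 * B + 2000) * σ m) + 16) (500 * σ m) :=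
    fun M k j => (blockF h hσ hF hB le_rfl hU hm (by linarith) (by linarith) (by linarith)
      (midF h hσ hc hF hm (by linarith) le_rfl hR j) M k).scale (by positivity) (by linarith)
  have h1 := treeF h hF (by linarith) (by linarith) (by linarith) hD 0 hK hx'
  have e1 : f.L (iv (y - x)) = μ (iv (y - x)) := by
    rw [hx, hx', map_smul, hL, smul_eq_mul, mul_one]
  rw [e1] at h1
  have h2 := ext_dom (Y := fun ω => μ (iv (y - x)) - TT ω x y) (by fun_prop)
    (s := 500 * σ m) (A := (B + 11 + Λ) * K) (by linarith) (by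
      rw [lintegral_shift x y
        (g := fun t => ENNReal.ofReal (exp ((μ (iv (y - x)) - t) / (500 * σ m)))) (by fun_prop)]
      refine h1.trans ((pow_le_pow_left' (G_le hΛ (A := B + 9) fun j => ?_) _).trans ?_)
      · have f1 : _ ≤ meanF f m m j := vq_low h hF (m := m) (by linarith) (by linarith) j
        have k2 : σ m / m * m = σ m := by field_simp
        have k4 : 0 ≤ B * σ m := by positivity
        rw [k2] at f1
        rw [zero_mul, add_zero, div_le_iff₀ (by linarith)]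
        linarith
      · rw [← ENNReal.ofReal_pow (by positivity), mul_comm _ (K : ℝ), exp_nat_mul]
        refine ENNReal.ofReal_le_ofReal (pow_le_pow_left₀ (by positivity) ?_ _)
        rw [show B + 11 + Λ = 2 + (B + 9 + Λ) by ring, exp_add 2]
        gcongr
        linarith [add_one_le_exp (2 : ℝ)])
  exact h2.mono (by linarith) fun ω a ha => ⟨a, ha, le_of_eq (by ring)⟩

section

variable {μ : ℝ × ℝ → ℝ} {σ : ℝ → ℝ} {B R m : ℝ}

lemma ext_TL (h : IsTC μ) (hσ : Sc σ) (hB : 0 ≤ B) (hU : EstU μ σ B 1 R) (hm : 10 ^ 27 ≤ m)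
    (hR : 16 * m ≤ R) {L : ℕ} (hL : 1000 * m ≤ L) (hL' : L ≤ 1001 * m) {y y' : VV}
    (hy : μ (iv (y' - y)) ≤ m + 2) :
    ∫⁻ ω, ENNReal.ofReal (exp ((TL L y y' ω - m) / (5 * σ m))) ∂PE ≤
      ENNReal.ofReal (exp (B + 4)) := by
  have h1 := h.ge (iv (y' - y))
  rw [r1_iv] at h1
  have s1 := hσ.big m (by linarith)
  have s3 := hσ.mul m 4 (by linarith) (by norm_num)
  have s4 := hσ.big (4 ^ 2 * m) (by linarith)
  have h2 := hU y y' (4 ^ 2 * m) (by linarith) (by linarith) (by linarith)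
  rw [div_one] at h2
  have h3 := mul_le_mul_of_nonneg_left s3 hB
  have h4 : 0 ≤ B * σ m := by positivity
  obtain ⟨W, a1, a2, a3⟩ := Dom.union (d := m + (4 * B + 1) * σ m) (s := 5 * σ m)
    (C := fun ω a => a = TL L y y' ω) (A := fun ω a => a ≤ TT ω y y')
    (B := fun ω a => ∃ e, L ≤ n1 (e - y) ∧ n1 (e - y) ≤ L + 1 ∧
      a ≤ 2 * wt ω (es (stair y y')) - TT ω y e)
    ((h2.scale (by linarith) (by linarith)).mono (by linarith)
      fun ω a ha => ⟨_, rfl, by linarith⟩)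
    (((dom_exit hm hL hL' (y := y) (y' := y') (by linarith)).scale (by norm_num)
      (by linarith)).mono (by linarith) fun ω a ⟨e, k1, k2, k3⟩ => ⟨_, ⟨e, k1, k2, rfl⟩, by
        linarith⟩) (by linarith)
    fun ω a ha => by rw [ha]; exact TL_cases (by linarith) ω
  calc _ ≤ ∫⁻ ω, ENNReal.ofReal (exp (B + 2)) * W ω ∂PE := by
        refine lintegral_mono fun ω => le_trans ?_ (mul_le_mul_right (a2 ω _ rfl) _)
        rw [← ENNReal.ofReal_mul (exp_pos _).le, ← exp_add]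
        refine ENNReal.ofReal_le_ofReal (exp_le_exp.2 ?_)
        rw [← sub_le_iff_le_add, ← sub_div, div_le_iff₀ (by linarith)]
        linarith
    _ ≤ ENNReal.ofReal (exp (B + 2)) * ENNReal.ofReal (exp 2) := by
        rw [lintegral_const_mul _ a1]
        gcongr
        refine a3.trans ?_
        rw [← ENNReal.ofReal_ofNat]
        exact ENNReal.ofReal_le_ofReal (by linarith [add_one_le_exp (2 : ℝ)])
    _ = _ := by rw [← ENNReal.ofReal_mul (exp_pos _).le, ← exp_add]; congr 2; ring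

lemma ext_upper (h : IsTC μ) {S A : ℝ} (hS : 0 < S) (hA : 0 ≤ A) (hm : 10 ^ 27 ≤ m) {L : ℕ}
    (L1 : 1000 * m ≤ L) (L2 : L ≤ 1001 * m)
    (hT : ∀ y y' : VV, μ (iv (y' - y)) ≤ m + 2 →
      ∫⁻ ω, ENNReal.ofReal (exp ((TL L y y' ω - m) / S)) ∂PE ≤ ENNReal.ofReal (exp A))
    {K : ℕ} (hK : 1 ≤ K) {x : VV} (hx : μ (iv x) = K * m) :
    ∫⁻ ω, ENNReal.ofReal (exp ((TT ω 0 x - K * m) / (9000 * S))) ∂PE ≤
      ENNReal.ofReal (exp (A * K)) := by
  have hK' : (1 : ℝ) ≤ K := by exact_mod_cast hK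
  have hm0 : 0 < m := by linarith
  have hu := unit_dir h hx (by positivity)
  set u := ((K : ℝ) * m)⁻¹ • iv x with hu'
  have hx' : iv x = ((K : ℝ) * m) • u := by rw [hu', smul_inv_smul₀ (by positivity)]
  clear_value u
  set y : ℕ → VV := fun i => fl (((i : ℝ) * m) • u) with hy
  have y0 : y 0 = 0 := by simp [hy, fl]
  have yK : y K = x := by simp only [hy]; rw [← hx', fl_iv]
  have hd : ∀ i j : ℕ, μ (iv (y i - y j)) ≤ |(i : ℝ) - j| * m + 2 ∧
      |(i : ℝ) - j| * m - 2 ≤ μ (iv (y i - y j)) := fun i j => by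
    have h1 := r1_fl_sub (((i : ℝ) * m) • u) (((j : ℝ) * m) • u)
    rw [← sub_smul, ← sub_mul] at h1
    have h2 := h.le_add (iv (y i - y j)) ((((i : ℝ) - j) * m) • u)
    have h3 := h.le_add ((((i : ℝ) - j) * m) • u) (iv (y i - y j))
    rw [r1_sub_comm] at h3
    rw [h.smul_abs, hu, abs_mul, abs_of_pos hm0] at h2 h3
    constructor <;> linarith
  have hd1 : ∀ i, μ (iv (y (i + 1) - y i)) ≤ m + 2 := fun i => by simpa using (hd (i + 1) i).1
  set φ : ℕ → (EE → ℝ) → ℝ := fun c ω => ∑ i ∈ (Finset.range K).filter (· % 9000 = c),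
    (TL L (y i) (y (i + 1)) ω - m) / S with hφ
  refine le_trans (lintegral_mono fun ω => ?_) (lintegral_exp_avg_le (Z := Finset.range 9000)
    (φ := φ) (by simp) (fun c _ => by simp only [hφ]; fun_prop) fun c _ => ?_)
  · refine ENNReal.ofReal_le_ofReal (exp_le_exp.2 ?_)
    simp only [avg, hφ]
    rw [Finset.sum_fiberwise_of_maps_to (g := (· % 9000))
      fun i _ => Finset.mem_range.2 (Nat.mod_lt _ (by norm_num)), ← Finset.sum_div,
      Finset.sum_sub_distrib]
    have h1 := TT_le_sum ω y K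
    rw [y0, yK] at h1
    have h2 : ∑ i ∈ Finset.range K, TT ω (y i) (y (i + 1)) ≤
        ∑ i ∈ Finset.range K, TL L (y i) (y (i + 1)) ω := Finset.sum_le_sum fun i _ =>
      TT_le_TL (by have := h.ge (iv (y (i + 1) - y i)); rw [r1_iv] at this; linarith [hd1 i]) ω
    simp only [Finset.sum_const, Finset.card_range, nsmul_eq_mul]
    rw [inv_mul_eq_div, div_div, show S * ((9000 : ℕ) : ℝ) = 9000 * S by push_cast; ring]
    exact div_le_div_of_nonneg_right (by linarith) (by linarith)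
  · simp only [hφ, exp_sum, ENNReal.ofReal_prod_of_nonneg fun _ _ => (exp_pos _).le]
    refine (lintegral_prod_le _ (S := fun i => (box (y i) L).sym2)
      (c := ENNReal.ofReal (exp A)) (fun i _ => by fun_prop)
      (fun i _ ω ω' hω => by simp only [dependsOn_TL L (y i) (y (i + 1)) hω])
      (fun i hi j hj hij => ?_) fun i _ => hT _ _ (hd1 i)).trans ?_
    · rw [Finset.disjoint_left]
      intro e h1 h2
      rw [Finset.mem_sym2_iff] at h1 h2
      obtain ⟨w, hw⟩ : ∃ w, w ∈ e := ⟨e.out.1, Sym2.out_fst_mem e⟩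
      have a1 := n1_le_of_mem_box (h1 w hw) (mem_box_of_n1 (w := y i) (by simp [n1]))
      have a2 := n1_le_of_mem_box (mem_box_of_n1 (w := y j) (by simp [n1])) (h2 w hw)
      have a3 := n1_add_le (y i - w) (w - y j)
      rw [sub_add_sub_cancel] at a3
      have a4 := h.le (iv (y i - y j))
      rw [r1_iv] at a4
      have a5 : (9000 : ℝ) ≤ |(i : ℝ) - j| := by
        have b1 := (Finset.mem_filter.1 hi).2
        have b2 := (Finset.mem_filter.1 hj).2
        have : (9000 : ℤ) ≤ |(i : ℤ) - j| := by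
          rcases abs_cases ((i : ℤ) - j) with b | b <;> omega
        exact_mod_cast this
      nlinarith [(hd i j).2]
    · rw [← ENNReal.ofReal_pow (exp_pos _).le, ← exp_nat_mul]
      refine ENNReal.ofReal_le_ofReal (exp_le_exp.2 ?_)
      have : ((((Finset.range K).filter (· % 9000 = c)).card : ℕ) : ℝ) ≤ K := by
        exact_mod_cast (Finset.card_filter_le _ _).trans (Finset.card_range K).le
      nlinarith

end

theorem upperM : ∃ Λ : ℝ, 0 ≤ Λ ∧ ∀ (μ : ℝ × ℝ → ℝ) (σ : ℝ → ℝ) (R m : ℝ), IsTC μ → Sc σ →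
    Conc σ R → 2 * σ m ≤ m → 1 ≤ m → 16 * m ≤ R → ∀ (K : ℕ) (x y : VV), 1 ≤ K →
    μ (iv (y - x)) = K * m →
    Dom (fun ω z => z = TT ω x y - μ (iv (y - x))) (Λ * K * σ m) (45000 * σ m) := by
  obtain ⟨B, hB, hBU⟩ := meanB
  refine ⟨45000 * (B + 4), by positivity, fun μ σ R m h hσ hc hs hm hR K x y hK hx => ?_⟩
  have s1 := hσ.big m hm
  have hm' : 10 ^ 27 ≤ m := by linarith
  have hU := (estBase h hσ hc (hBU μ σ R h hσ hc) hB le_rfl (by linarith)).1
  have L1 : 1000 * m ≤ (⌈1000 * m⌉₊ : ℕ) := Nat.le_ceil _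
  have L2 : (⌈1000 * m⌉₊ : ℕ) ≤ 1001 * m := by
    linarith [Nat.ceil_lt_add_one (a := 1000 * m) (by linarith)]
  have h1 := ext_upper h (S := 5 * σ m) (A := B + 4) (by linarith) (by linarith) hm' L1 L2
    (fun y y' hy => ext_TL h hσ hB hU hm' hR L1 L2 hy) hK hx
  rw [show 9000 * (5 * σ m) = 45000 * σ m by ring, ← hx] at h1
  have h2 := ext_dom (Y := fun ω => TT ω x y - μ (iv (y - x))) (by fun_prop)
    (s := 45000 * σ m) (A := (B + 4) * K) (by linarith) (by
      rw [lintegral_shift x y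
        (g := fun t => ENNReal.ofReal (exp ((t - μ (iv (y - x))) / (45000 * σ m)))) (by fun_prop)]
      exact h1)
  exact h2.mono (by linarith) fun ω a ha => ⟨a, ha, le_of_eq (by ring)⟩

lemma ext_pow {X : ℝ} (hX : 1 ≤ X) : ∃ k : ℕ, 2048 ≤ k ∧ ∀ σ : ℝ → ℝ, Sc σ → ∀ r m : ℝ, 0 ≤ m →
    k * m ≤ r → 45000 * σ m ≤ σ r / X := by
  obtain ⟨J, hJ⟩ := exists_pow_lt_of_lt_one (x := 1 / (45000 * X)) (y := (4 / 5 : ℝ))
    (by positivity) (by norm_num)
  refine ⟨2 ^ (J + 11), ?_, fun σ hσ r m hm hr => ?_⟩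
  · rw [pow_add]
    have : 1 ≤ 2 ^ J := Nat.one_le_two_pow
    omega
  · have h2 : (0 : ℝ) < 2 ^ J := by positivity
    have h3 : (2 : ℝ) ^ J * m ≤ r := by
      refine le_trans ?_ hr
      push_cast
      rw [pow_add]
      nlinarith [mul_nonneg h2.le hm]
    have hr0 : 0 ≤ r := le_trans (by positivity) h3
    have h4 := hσ.mono m (r / 2 ^ J) hm (by rw [le_div_iff₀ h2]; linarith)
    have h5 := hσ.pow_half hr0 J
    have h6 := mul_le_mul_of_nonneg_right hJ.le (hσ.nonneg r hr0)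
    have h7 : 1 / (45000 * X) * σ r = σ r / X / 45000 := by field_simp
    linarith

theorem ext {X : ℝ} (hX : 1 ≤ X) : ∃ B K : ℝ, 0 ≤ B ∧ ∀ (μ : ℝ × ℝ → ℝ) (σ : ℝ → ℝ) (R : ℝ),
    IsTC μ → Sc σ → Conc σ R → (∀ r, 1 ≤ r → K ≤ σ r) →
    EstU μ σ B X (2 * R) ∧ EstD μ σ B X (2 * R) := by
  obtain ⟨Λ, hΛ, hlow⟩ := lowerM
  obtain ⟨Λ', hΛ', hup⟩ := upperM
  obtain ⟨k, hk, hks⟩ := ext_pow hX
  have hk' : (2048 : ℝ) ≤ k := by exact_mod_cast hk
  have hX0 : 0 < X := by linarith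
  refine ⟨(Λ + Λ' + 23) * k, 3000000 * k * X, by positivity, fun μ σ R h hσ hc hK => ?_⟩
  have key : ∀ (x y : VV) (r : ℝ), n1 (y - x) ≤ r → 1 ≤ r → r ≤ 2 * R →
      Dom (fun ω z => z = TT ω x y - μ (iv (y - x))) ((Λ + Λ' + 23) * k * σ r) (σ r / X) ∧
      Dom (fun ω z => z = μ (iv (y - x)) - TT ω x y) ((Λ + Λ' + 23) * k * σ r) (σ r / X) := by
    intro x y r hn hr hR
    have s1 := hσ.big r hr
    have s2 := hK r hr
    have s3 : 0 < σ r / X := by positivity
    have n0 := h.nonneg (iv (y - x))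
    have n1' := h.le (iv (y - x))
    have n2 := h.ge (iv (y - x))
    rw [r1_iv] at n1' n2
    obtain ⟨m, hm⟩ : ∃ m, m = μ (iv (y - x)) / k := ⟨_, rfl⟩
    have hm0 : 0 ≤ m := by rw [hm]; positivity
    have hx : μ (iv (y - x)) = k * m := by rw [hm]; field_simp
    have hmr : m ≤ r := by nlinarith
    have s4 := hσ.mono m r hm0 hmr
    have s5 := hσ.nonneg m hm0
    have c1 : 0 ≤ Λ * k * σ r := by positivity
    have c2 : 0 ≤ Λ' * k * σ r := by positivity
    have c3 : σ r ≤ k * σ r := by nlinarith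
    by_cases hcase : 1 ≤ m ∧ 2 * σ m ≤ m
    · obtain ⟨m1, m2⟩ := hcase
      have s6 := hσ.big m m1
      have s7 := hks σ hσ r m hm0 (by linarith)
      have hmR : 1024 * m ≤ R := by nlinarith
      have c4 : Λ * k * σ m ≤ Λ * k * σ r := by gcongr
      have c5 : Λ' * k * σ m ≤ Λ' * k * σ r := by gcongr
      refine ⟨((hup μ σ R m h hσ hc m2 m1 (by linarith) k x y (by omega) hx).scale
        (by linarith) s7).mono s3 fun ω a ha => ⟨a, ha, by linarith⟩,
        ((hlow μ σ R m h hσ hc m1 m2 hmR k x y (by omega) hx).scale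
        (by linarith) (by linarith)).mono s3 fun ω a ha => ⟨a, ha, by linarith⟩⟩
    · have m1 : m ≤ 2 * σ r := by
        by_contra hc'
        exact hcase ⟨by linarith, by
          by_contra hc''
          linarith⟩
      have hn' : n1 (y - x) ≤ 22 * (k * σ r) := by nlinarith
      have kX : X ≤ k * X := by nlinarith
      have s8 : 4 ≤ σ r / X := by rw [le_div_iff₀ hX0]; linarith
      have s9 : 46000 * (2 * (22 * (k * σ r)) + 1) / (σ r / X) ≤ σ r := by
        rw [div_le_iff₀ s3, ← mul_div_assoc, le_div_iff₀ hX0]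
        have d1 := mul_le_mul_of_nonneg_right s2 (show 0 ≤ σ r by linarith)
        have d2 : X ≤ k * σ r * X := by nlinarith
        nlinarith
      have g1 := hh_le (y - x)
      have g2 := h.le_hh (y - x)
      refine ⟨(dom_gauss x y hn' s8 (Or.inl rfl)).mono s3 fun ω a ha => ⟨_, rfl, ?_⟩,
        (dom_gauss x y hn' s8 (Or.inr rfl)).mono s3 fun ω a ha => ⟨_, rfl, ?_⟩⟩
      · rw [ha]; linarith
      · rw [ha]; linarith
  exact ⟨fun x y r a b c => (key x y r a b c).1, fun x y r a b c => (key x y r a b c).2⟩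

end Pool.Agent.Lib.MP_de94ef_pr.Q.V
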